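import Pool.Agent.Helper31.CY.St4

/-!
# CY module XB2 (MP_9583f0_gt): the rim of a flat disc is a boundary point
-/

set_option autoImplicit false

open Set Topology Filter

namespace Pool.Agent.Helper22.CY

open Pool.Agent.Helper31.CY

private noncomputable def Phi (p x : E3) : E3 :=
  pt (p 0 ^ 2 + p 1 ^ 2 - (x 0 ^ 2 + x 1 ^ 2)) (x 2 - p 2) (p 0 * x 1 - p 1 * x 0)

private lemma Phi0 (p x : E3) : Phi p x 0 = p 0 ^ 2 + p 1 ^ 2 - (x 0 ^ 2 + x 1 ^ 2) := by
  simp [Phi, pt]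

private lemma Phi1 (p x : E3) : Phi p x 1 = x 2 - p 2 := by
  simp [Phi, pt]

private lemma Phi2 (p x : E3) : Phi p x 2 = p 0 * x 1 - p 1 * x 0 := by
  simp [Phi, pt]

private lemma coord_hd (i : Fin 3) (x : E3) :
    HasFDerivAt (fun y : E3 => y i) (EuclideanSpace.proj i : E3 →L[ℝ] ℝ) x :=
  (EuclideanSpace.proj i : E3 →L[ℝ] ℝ).hasFDerivAt

private lemma coord_cd (i : Fin 3) : ContDiff ℝ 1 (fun y : E3 => y i) :=
  (EuclideanSpace.proj i : E3 →L[ℝ] ℝ).contDiff

private lemma Phi_cd (p : E3) : ContDiff ℝ 1 (Phi p) := by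
  rw [contDiff_euclidean]
  intro i
  fin_cases i
  · have h : (fun x => Phi p x 0) = fun x : E3 => p 0 ^ 2 + p 1 ^ 2 - (x 0 ^ 2 + x 1 ^ 2) := by
      funext x; exact Phi0 p x
    show ContDiff ℝ 1 (fun x => Phi p x 0)
    rw [h]
    exact contDiff_const.sub (((coord_cd 0).pow 2).add ((coord_cd 1).pow 2))
  · have h : (fun x => Phi p x 1) = fun x : E3 => x 2 - p 2 := by
      funext x; exact Phi1 p x
    show ContDiff ℝ 1 (fun x => Phi p x 1)
    rw [h]
    exact (coord_cd 2).sub contDiff_const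
  · have h : (fun x => Phi p x 2) = fun x : E3 => p 0 * x 1 - p 1 * x 0 := by
      funext x; exact Phi2 p x
    show ContDiff ℝ 1 (fun x => Phi p x 2)
    rw [h]
    exact (contDiff_const.mul (coord_cd 1)).sub (contDiff_const.mul (coord_cd 0))

private lemma comp_fd (p : E3) (i : Fin 3) (v : E3) (L : E3 →L[ℝ] ℝ)
    (h : HasFDerivAt (fun x => Phi p x i) L p) : fderiv ℝ (Phi p) p v i = L v := by
  have h1 : HasFDerivAt (Phi p) (fderiv ℝ (Phi p) p) p :=
    ((Phi_cd p).differentiable (by norm_num)).differentiableAt.hasFDerivAt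
  have h2 : HasFDerivAt (fun x => Phi p x i)
      ((EuclideanSpace.proj i : E3 →L[ℝ] ℝ).comp (fderiv ℝ (Phi p) p)) p :=
    (coord_hd i (Phi p p)).comp p h1
  have h3 := h.unique h2
  rw [h3]
  rfl

private lemma fd0 (p v : E3) : fderiv ℝ (Phi p) p v 0 = -(2 * (p 0 * v 0 + p 1 * v 1)) := by
  have hd : HasFDerivAt (fun x => Phi p x 0)
      (-((2 * p 0) • (EuclideanSpace.proj 0 : E3 →L[ℝ] ℝ)
        + (2 * p 1) • (EuclideanSpace.proj 1 : E3 →L[ℝ] ℝ))) p := by
    have h : (fun x => Phi p x 0) = fun x : E3 => p 0 ^ 2 + p 1 ^ 2 - (x 0 ^ 2 + x 1 ^ 2) := by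
      funext x; exact Phi0 p x
    rw [h]
    have h0 : HasFDerivAt (fun x : E3 => x 0 ^ 2)
        ((2 * p 0) • (EuclideanSpace.proj 0 : E3 →L[ℝ] ℝ)) p := by
      have := (coord_hd 0 p).pow 2
      simpa using this
    have h1 : HasFDerivAt (fun x : E3 => x 1 ^ 2)
        ((2 * p 1) • (EuclideanSpace.proj 1 : E3 →L[ℝ] ℝ)) p := by
      have := (coord_hd 1 p).pow 2
      simpa using this
    exact (h0.add h1).const_sub _
  rw [comp_fd p 0 v _ hd]
  simp
  ring

private lemma fd1 (p v : E3) : fderiv ℝ (Phi p) p v 1 = v 2 := by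
  have hd : HasFDerivAt (fun x => Phi p x 1) (EuclideanSpace.proj 2 : E3 →L[ℝ] ℝ) p := by
    have h : (fun x => Phi p x 1) = fun x : E3 => x 2 - p 2 := by
      funext x; exact Phi1 p x
    rw [h]
    exact (coord_hd 2 p).sub_const _
  rw [comp_fd p 1 v _ hd]
  simp

private lemma fd2 (p v : E3) : fderiv ℝ (Phi p) p v 2 = p 0 * v 1 - p 1 * v 0 := by
  have hd : HasFDerivAt (fun x => Phi p x 2)
      (p 0 • (EuclideanSpace.proj 1 : E3 →L[ℝ] ℝ)
        - p 1 • (EuclideanSpace.proj 0 : E3 →L[ℝ] ℝ)) p := by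
    have h : (fun x => Phi p x 2) = fun x : E3 => p 0 * x 1 - p 1 * x 0 := by
      funext x; exact Phi2 p x
    rw [h]
    exact ((coord_hd 1 p).const_mul (p 0)).sub ((coord_hd 0 p).const_mul (p 1))
  rw [comp_fd p 2 v _ hd]
  simp

/-- CY module XB2 -/
theorem hXB2 : StXB2 := by
  intro S p ε hp hε hS
  refine ⟨Phi p, Metric.ball p ε, Metric.isOpen_ball, Metric.mem_ball_self hε,
    (Phi_cd p).contDiffOn, ?_, ?_, ?_⟩
  · ext i
    fin_cases i
    · show Phi p p 0 = 0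
      rw [Phi0]; ring
    · show Phi p p 1 = 0
      rw [Phi1]; ring
    · show Phi p p 2 = 0
      rw [Phi2]; ring
  · intro v hv h
    apply hv
    have h0 : fderiv ℝ (Phi p) p v 0 = 0 := by rw [h]; rfl
    have h1 : fderiv ℝ (Phi p) p v 1 = 0 := by rw [h]; rfl
    have h2 : fderiv ℝ (Phi p) p v 2 = 0 := by rw [h]; rfl
    rw [fd0] at h0
    rw [fd1] at h1
    rw [fd2] at h2
    have e0 : (p 0 ^ 2 + p 1 ^ 2) * v 0 = 0 := by
      linear_combination (-(p 0) / 2) * h0 - p 1 * h2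
    have e1 : (p 0 ^ 2 + p 1 ^ 2) * v 1 = 0 := by
      linear_combination (-(p 1) / 2) * h0 + p 0 * h2
    have v0 : v 0 = 0 := (mul_eq_zero.mp e0).resolve_left hp.ne'
    have v1 : v 1 = 0 := (mul_eq_zero.mp e1).resolve_left hp.ne'
    ext i
    fin_cases i
    · exact v0
    · exact v1
    · exact h1
  · intro x hx
    rw [hS x hx, Phi0, Phi1]
    constructor
    · rintro ⟨ha, hb⟩
      have hc : x 0 ^ 2 + x 1 ^ 2 ≤ p 0 ^ 2 + p 1 ^ 2 := by
        unfold rad at hb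
        exact (Real.sqrt_le_sqrt_iff hp.le).mp hb
      exact ⟨by linarith, by linarith⟩
    · rintro ⟨ha, hb⟩
      refine ⟨by linarith, ?_⟩
      unfold rad
      exact Real.sqrt_le_sqrt (by linarith)

end Pool.Agent.Helper22.CY
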